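import Mathlib

set_option autoImplicit false

/-! Small lemmas: colouring by residues, pigeonhole, residue vectors. -/

namespace Pool.Agent.H35_CR

open Finset Filter

/-- every residue class mod `m` has at least `K / (2 m)` elements in `{0, ..., K - 1}` -/
theorem col_fib {K m : ℕ} (hm : 0 < m) (hK : m ≤ K) (e : Fin m) :
    K ≤ 2 * m * (univ.filter (fun i : Fin K => (⟨(i : ℕ) % m, Nat.mod_lt _ hm⟩ : Fin m) = e)).card := by
  classical
  have h1 : K / m ≤ (univ.filter (fun i : Fin K => (⟨(i : ℕ) % m, Nat.mod_lt _ hm⟩ : Fin m) = e)).card := by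
    have h2 : ∀ q ∈ range (K / m), q * m + e < K := by
      intro q hq
      rw [mem_range] at hq
      have h3 : (q + 1) * m ≤ K := by
        calc (q + 1) * m ≤ (K / m) * m := Nat.mul_le_mul_right _ hq
          _ ≤ K := Nat.div_mul_le_self _ _
      have := e.2
      nlinarith
    have h4 : (range (K / m)).card = K / m := card_range _
    rw [← h4]
    refine Finset.card_le_card_of_injOn (fun q => if h : q * m + e < K then (⟨q * m + e, h⟩ : Fin K) else
      ⟨0, by have := e.2; omega⟩) ?_ ?_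
    · intro q hq
      have h5 := h2 q hq
      simp only [dif_pos h5]
      rw [mem_coe, mem_filter]
      refine ⟨mem_univ _, ?_⟩
      apply Fin.ext
      show (q * m + e) % m = e
      rw [add_comm, Nat.add_mul_mod_self_right]
      exact Nat.mod_eq_of_lt e.2
    · intro q hq q' hq' hqq
      simp only [dif_pos (h2 q hq), dif_pos (h2 q' hq')] at hqq
      have h6 := Fin.mk.inj_iff.1 hqq
      have h7 : q * m = q' * m := by omega
      exact Nat.eq_of_mul_eq_mul_right hm h7
  have h8 : 1 ≤ K / m := (Nat.one_le_div_iff hm).2 hK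
  have h9 : K < m * (K / m + 1) := by
    have := Nat.lt_mul_div_succ K hm
    exact this
  have h10 : m * (K / m + 1) ≤ 2 * m * (K / m) := by nlinarith
  calc K ≤ 2 * m * (K / m) := by omega
    _ ≤ _ := Nat.mul_le_mul_left _ h1

/-- finitely many positive numbers have a positive lower bound -/
theorem exists_pos_lower (f : ℕ → ℝ) (hf : ∀ m, 0 < f m) (M : ℕ) : ∃ c : ℝ, 0 < c ∧ ∀ m ≤ M, c ≤ f m := by
  induction M with
  | zero => exact ⟨f 0, hf 0, fun m hm => by rw [Nat.le_zero.1 hm]⟩
  | succ M ih =>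
    obtain ⟨c, hc, h⟩ := ih
    refine ⟨min c (f (M + 1)), lt_min hc (hf _), fun m hm => ?_⟩
    rcases Nat.lt_or_ge M m with h1 | h1
    · have : m = M + 1 := by omega
      rw [this]; exact min_le_right _ _
    · exact (min_le_left _ _).trans (h m h1)

/-- pigeonhole: a set covered by the sets `P z`, `z` in a finite type -/
theorem pigeon {Z : Type} [Fintype Z] (S : Set ℕ) (P : Z → Set ℕ) (hP : ∀ z, (P z).Finite)
    (hS : S ⊆ ⋃ z, P z) (u : ℝ) (hu : (Fintype.card Z : ℝ) * u < (S.ncard : ℝ)) :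
    ∃ z, u ≤ ((P z).ncard : ℝ) := by
  classical
  by_contra hcon
  push Not at hcon
  have h1 : S.ncard ≤ ∑ z, (P z).ncard := by
    refine (Set.ncard_le_ncard hS (Set.finite_iUnion hP)).trans ?_
    have := Set.ncard_iUnion_le_of_fintype P
    exact this
  have h2 : (S.ncard : ℝ) ≤ ∑ z, ((P z).ncard : ℝ) := by exact_mod_cast h1
  have h3 : ∑ z, ((P z).ncard : ℝ) ≤ ∑ _z : Z, u := Finset.sum_le_sum (fun z _ => (hcon z).le)
  rw [Finset.sum_const, card_univ, nsmul_eq_mul] at h3
  linarith

/-- the vector of the residues modulo `1, ..., B + 1` -/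
def res (B : ℕ) (v : ℕ) : Fin (B + 1) → Fin (B + 1) := fun p =>
  ⟨v % ((p : ℕ) + 1), by
    have h1 : v % ((p : ℕ) + 1) < (p : ℕ) + 1 := Nat.mod_lt v (Nat.succ_pos (p : ℕ))
    have := p.2
    omega⟩

theorem res_eq {B v w p : ℕ} (h : res B v = res B w) (hp : 1 ≤ p) (hpB : p ≤ B) : v ≡ w [MOD p] := by
  have h1 := congrFun h ⟨p - 1, by omega⟩
  have h2 := Fin.mk.inj_iff.1 h1
  have h3 : p - 1 + 1 = p := by omega
  simp only [h3] at h2
  exact h2

end Pool.Agent.H35_CR
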