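import Pool.Agent.TH101.RG.TupMult
import Pool.Agent.W25.QL.Main
import Pool.Agent.W25.QL.Count
import Pool.Agent.H35_CR.Pre

set_option autoImplicit false

/-!
# A positive proportion of the patterns of every set of shifts occurs inside a cluster isolated by record gaps

`tuple_multiples` (coloured Maynard-Tao theorem for arbitrary admissible tuples, with record gaps around all the
rational multiples of a linear form) combined with the combinatorial theorem `W25.QL.main_gen`, `count_pow`.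
-/

namespace Pool.Agent.H35_CR

open Finset Filter
open Pool.Agent.H256R2.SC (ff)
open Pool.Agent.H362R2.RQ (fib)
open Pool.Agent.W25.QL (QProp main_gen count_pow)

open scoped Classical

/-- the `n` of `(X, 3X]` in the class `h` modulo `d` with all `n + f` prime, `f ∈ F`, for which all the primes near
the rational multiples of `a n + b` of height at most `J` are among at most `K` of the `n + v`, `v ∈ V` -/
def Good (K J d h : ℕ) (a b : ℤ) (c X : ℝ) (V F : Finset ℕ) : Set ℕ :=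
  {n : ℕ | X < n ∧ (n : ℝ) ≤ 3 * X ∧ n ≡ h [MOD d] ∧ (∀ f ∈ F, (n + f).Prime) ∧
    ∃ U ⊆ V, U.card ≤ K ∧ ∀ i j : ℤ, 1 ≤ |i| → |i| ≤ J → 1 ≤ |j| → |j| ≤ J → ∀ q : ℕ, q.Prime →
      |((j * q - i * (a * n + b) : ℤ) : ℝ)| ≤ c * ff X → ∃ u ∈ U, q = n + u}

theorem Good_finite {K J d h : ℕ} {a b : ℤ} {c X : ℝ} {V F : Finset ℕ} : (Good K J d h a b c X V F).Finite := by
  apply (Set.finite_Iic ⌊3 * X⌋₊).subset
  intro p hp
  exact Set.mem_Iic.2 (Nat.le_floor hp.2.1)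

theorem Good_anti {K J d h : ℕ} {a b : ℤ} {c X : ℝ} {V F F' : Finset ℕ} (hF : F' ⊆ F) :
    Good K J d h a b c X V F ⊆ Good K J d h a b c X V F' := by
  rintro n ⟨h1, h2, h3, h4, h5⟩
  exact ⟨h1, h2, h3, fun f hf => h4 f (hF hf), h5⟩

theorem main : ∃ η : ℝ, 0 < η ∧ ∀ (k : ℕ) (ε : ℝ), 0 < ε → ∃ T K n₀ : ℕ, 1 ≤ T ∧
    ∀ (J D : ℕ) (A₀ : ℝ) (d : ℕ), Squarefree d → ∃ c : ℝ, 0 < c ∧ ∀ᶠ X : ℝ in atTop,
    ∀ V : Finset ℕ, n₀ ≤ V.card → (∀ v ∈ V, (v : ℝ) ≤ (Real.log X) ^ 2) →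
    (∀ S ⊆ V, S.card ≤ T → ∀ p : ℕ, p.Prime → ∃ r : ℕ, ∀ s ∈ S, ¬ p ∣ r + s) →
    ∀ h : ℕ, (∀ v ∈ V, (h + v).Coprime d) →
    ∀ a b : ℤ, a ≠ 0 → |(a : ℝ)| ≤ (Real.log X) ^ D → |(a : ℝ)| ≤ A₀ * (a.natAbs.totient : ℝ) →
    |(b : ℝ)| ≤ X ^ D →
    (η ^ k - ε) * (V.card : ℝ) ^ (k + 1) ≤
      (((Fintype.piFinset (fun _ : Fin (k + 1) => V)).filter (fun y => Function.Injective y ∧
        X ^ (3 / 4 : ℝ) ≤ ((Good K J d h a b c X V (univ.image y)).ncard : ℝ))).card : ℝ) := by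
  obtain ⟨η₀, hη₀, H⟩ := Pool.Agent.TH101.RG.tuple_multiples
  obtain ⟨η, hη, hη1, hηη⟩ : ∃ η : ℝ, 0 < η ∧ η ≤ 1 ∧ η ≤ η₀ :=
    ⟨min η₀ 1, lt_min hη₀ one_pos, min_le_right _ _, min_le_left _ _⟩
  refine ⟨η, hη, fun k ε hε => ?_⟩
  have hH : ∀ m : ℕ, ∃ K : ℕ, 1 ≤ m → m ≤ K ∧ ∀ (J D : ℕ) (A₀ : ℝ) (d : ℕ), Squarefree d →
    ∃ c : ℝ, 0 < c ∧ ∀ᶠ X : ℝ in atTop,
    ∀ a b : ℤ, a ≠ 0 → |(a : ℝ)| ≤ (Real.log X) ^ D → |(a : ℝ)| ≤ A₀ * (a.natAbs.totient : ℝ) →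
    |(b : ℝ)| ≤ X ^ D →
    ∀ t : Fin K → ℕ, Function.Injective t → (∀ j, (t j : ℝ) ≤ (Real.log X) ^ 2) →
    (∀ p : ℕ, p.Prime → ∃ v : ℕ, ∀ j, ¬ p ∣ v + t j) →
    ∀ h : ℕ, (∀ j, (h + t j).Coprime d) →
    ∀ col : Fin K → Fin m, (∀ e, K ≤ 2 * m * fib col e) →
    ∀ bad : Finset ℕ, (bad.card : ℝ) ≤ X ^ (7 / 8 : ℝ) →
    ∃ n : ℕ, X < n ∧ (n : ℝ) ≤ 3 * X ∧ n ∉ bad ∧ n ≡ h [MOD d] ∧
      (∃ E : Finset (Fin m), η₀ * m ≤ E.card ∧ ∀ e ∈ E, ∃ j, col j = e ∧ (n + t j).Prime) ∧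
      ∀ i j : ℤ, 1 ≤ |i| → |i| ≤ J → 1 ≤ |j| → |j| ≤ J → ∀ q : ℕ, q.Prime →
        |((j * q - i * (a * n + b) : ℤ) : ℝ)| ≤ c * ff X → ∃ l, q = n + t l := by
    intro m
    by_cases hm : 1 ≤ m
    · obtain ⟨K, hK1, hK2⟩ := H m hm
      exact ⟨K, fun _ => ⟨hK1, hK2⟩⟩
    · exact ⟨0, fun h => absurd h hm⟩
  choose Kf hKf using hH
  have hlam : (1 : ℝ) ≤ 1 / η := by rw [le_div_iff₀ hη]; linarith
  have hlam0 : (0 : ℝ) < 1 / η := by positivity
  have hηp : (1 / (1 / η)) ^ k = η ^ k := by rw [one_div_one_div]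
  have hδ1 : η ^ k ≤ 1 := pow_le_one₀ hη.le hη1
  obtain ⟨T, M, hT, hM⟩ := main_gen (lam := 1 / η) hlam0 k (η ^ k) hδ1 (fun ε' hε' => by
    rw [← hηp]
    exact count_pow hlam k ε' hε') ε hε Kf
  obtain ⟨B, hB⟩ : ∃ B : ℕ, ∀ m ≤ M, Kf m ≤ B := by
    refine ⟨∑ m ∈ range (M + 1), Kf m, fun m hm => ?_⟩
    exact Finset.single_le_sum (f := Kf) (fun _ _ => Nat.zero_le _) (mem_range.2 (by omega))
  obtain ⟨n₀, hn₀⟩ := hM (Fin (B + 1) → Fin (B + 1))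
  refine ⟨T, B, n₀, hT, fun J D A₀ d hd => ?_⟩
  have hc : ∀ m : ℕ, ∃ c : ℝ, 0 < c ∧ (1 ≤ m → ∀ᶠ X : ℝ in atTop,
    ∀ a b : ℤ, a ≠ 0 → |(a : ℝ)| ≤ (Real.log X) ^ D → |(a : ℝ)| ≤ A₀ * (a.natAbs.totient : ℝ) →
    |(b : ℝ)| ≤ X ^ D →
    ∀ t : Fin (Kf m) → ℕ, Function.Injective t → (∀ j, (t j : ℝ) ≤ (Real.log X) ^ 2) →
    (∀ p : ℕ, p.Prime → ∃ v : ℕ, ∀ j, ¬ p ∣ v + t j) →
    ∀ h : ℕ, (∀ j, (h + t j).Coprime d) →
    ∀ col : Fin (Kf m) → Fin m, (∀ e, Kf m ≤ 2 * m * fib col e) →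
    ∀ bad : Finset ℕ, (bad.card : ℝ) ≤ X ^ (7 / 8 : ℝ) →
    ∃ n : ℕ, X < n ∧ (n : ℝ) ≤ 3 * X ∧ n ∉ bad ∧ n ≡ h [MOD d] ∧
      (∃ E : Finset (Fin m), η₀ * m ≤ E.card ∧ ∀ e ∈ E, ∃ j, col j = e ∧ (n + t j).Prime) ∧
      ∀ i j : ℤ, 1 ≤ |i| → |i| ≤ J → 1 ≤ |j| → |j| ≤ J → ∀ q : ℕ, q.Prime →
        |((j * q - i * (a * n + b) : ℤ) : ℝ)| ≤ c * ff X → ∃ l, q = n + t l) := by
    intro m
    by_cases hm : 1 ≤ m
    · obtain ⟨c, hc, h⟩ := (hKf m hm).2 J D A₀ d hd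
      exact ⟨c, hc, fun _ => h⟩
    · exact ⟨1, one_pos, fun h => absurd h hm⟩
  choose cf hcf0 hcf using hc
  obtain ⟨c, hc0, hcle⟩ := exists_pos_lower cf hcf0 M
  refine ⟨c, hc0, ?_⟩
  have hev1 : ∀ᶠ X : ℝ in atTop, ∀ m ∈ (range (M + 1)).filter (fun m => 1 ≤ m),
    ∀ a b : ℤ, a ≠ 0 → |(a : ℝ)| ≤ (Real.log X) ^ D → |(a : ℝ)| ≤ A₀ * (a.natAbs.totient : ℝ) →
    |(b : ℝ)| ≤ X ^ D →
    ∀ t : Fin (Kf m) → ℕ, Function.Injective t → (∀ j, (t j : ℝ) ≤ (Real.log X) ^ 2) →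
    (∀ p : ℕ, p.Prime → ∃ v : ℕ, ∀ j, ¬ p ∣ v + t j) →
    ∀ h : ℕ, (∀ j, (h + t j).Coprime d) →
    ∀ col : Fin (Kf m) → Fin m, (∀ e, Kf m ≤ 2 * m * fib col e) →
    ∀ bad : Finset ℕ, (bad.card : ℝ) ≤ X ^ (7 / 8 : ℝ) →
    ∃ n : ℕ, X < n ∧ (n : ℝ) ≤ 3 * X ∧ n ∉ bad ∧ n ≡ h [MOD d] ∧
      (∃ E : Finset (Fin m), η₀ * m ≤ E.card ∧ ∀ e ∈ E, ∃ j, col j = e ∧ (n + t j).Prime) ∧
      ∀ i j : ℤ, 1 ≤ |i| → |i| ≤ J → 1 ≤ |j| → |j| ≤ J → ∀ q : ℕ, q.Prime →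
        |((j * q - i * (a * n + b) : ℤ) : ℝ)| ≤ cf m * ff X → ∃ l, q = n + t l := by
    rw [Filter.eventually_all_finset]
    intro m hm
    exact hcf m (mem_filter.1 hm).2
  have hev2 : ∀ᶠ X : ℝ in atTop, ∀ m ∈ range (M + 1),
      (Fintype.card (Finset (Fin m) × (Fin m → Fin (Kf m))) : ℝ) * X ^ (3 / 4 : ℝ) ≤ X ^ (7 / 8 : ℝ) := by
    rw [Filter.eventually_all_finset]
    intro m _
    have h1 := (tendsto_rpow_atTop (show (0 : ℝ) < 1 / 8 by norm_num)).eventually_ge_atTop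
      (Fintype.card (Finset (Fin m) × (Fin m → Fin (Kf m))) : ℝ)
    filter_upwards [h1, eventually_gt_atTop 0] with X hX hX0
    have h2 : X ^ (7 / 8 : ℝ) = X ^ (1 / 8 : ℝ) * X ^ (3 / 4 : ℝ) := by
      rw [← Real.rpow_add hX0]; norm_num
    rw [h2]
    exact mul_le_mul_of_nonneg_right hX (Real.rpow_nonneg hX0.le _)
  filter_upwards [hev1, hev2, Pool.Agent.H312R2.RG.ev_ff 1 one_pos] with X hX1 hX2 hX3
  intro V hVn hVX hadm h hh a b ha haD haφ hb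
  refine hn₀ ℕ V (res B) (fun F => X ^ (3 / 4 : ℝ) ≤ ((Good B J d h a b c X V F).ncard : ℝ)) hVn ?_ ?_
  · intro F F' hF hG
    refine hG.trans ?_
    exact_mod_cast Set.ncard_le_ncard (Good_anti hF) Good_finite
  intro m hm1 hmM Hb hHV hHinj hy
  obtain ⟨y, hyV, hyres⟩ := hy
  have hm0 : 0 < m := hm1
  have hmK := (hKf m hm1).1
  set t : Fin (Kf m) → ℕ := fun j => Hb ⟨(j : ℕ) % m, Nat.mod_lt _ hm0⟩ j with ht
  set col : Fin (Kf m) → Fin m := fun j => ⟨(j : ℕ) % m, Nat.mod_lt _ hm0⟩ with hcol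
  have htV : ∀ j, t j ∈ V := fun j => hHV _ _
  have htinj : Function.Injective t := by
    intro i j hij
    have h1 : (fun x : Fin m × Fin (Kf m) => Hb x.1 x.2) (col i, i) =
        (fun x : Fin m × Fin (Kf m) => Hb x.1 x.2) (col j, j) := hij
    exact congrArg Prod.snd (hHinj h1)
  have htadm : ∀ p : ℕ, p.Prime → ∃ v : ℕ, ∀ j, ¬ p ∣ v + t j := by
    intro p hp
    rcases Nat.lt_or_ge B p with hpB | hpB
    · -- a large prime
      have h1 : ((univ : Finset (Fin (Kf m))).image (fun j => t j % p)).card < p := by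
        refine lt_of_le_of_lt card_image_le ?_
        rw [card_univ, Fintype.card_fin]
        exact lt_of_le_of_lt (hB m hmM) hpB
      obtain ⟨r, hr1, hr2⟩ : ∃ r ∈ range p, r ∉ (univ : Finset (Fin (Kf m))).image (fun j => t j % p) := by
        by_contra hcon
        push Not at hcon
        have h2 : range p ⊆ (univ : Finset (Fin (Kf m))).image (fun j => t j % p) := hcon
        have h3 := card_le_card h2
        rw [card_range] at h3
        omega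
      rw [mem_range] at hr1
      refine ⟨p - r, fun j hd => hr2 (mem_image.2 ⟨j, mem_univ _, ?_⟩)⟩
      have h4 : p - r + t j ≡ 0 [MOD p] := (Nat.modEq_zero_iff_dvd).2 hd
      have h5 : p - r + t j + r ≡ 0 + r [MOD p] := Nat.ModEq.add_right r h4
      have h6 : p - r + t j + r = p + t j := by omega
      rw [h6, zero_add] at h5
      have h7 : t j ≡ r [MOD p] := by
        have h8 : p + t j ≡ t j [MOD p] := by
          show (p + t j) % p = t j % p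
          rw [Nat.add_mod_left]
        exact h8.symm.trans h5
      have h9 : t j % p = r % p := h7
      rw [h9, Nat.mod_eq_of_lt hr1]
    · obtain ⟨r, hr⟩ := hadm (univ.image y) (by
        intro v hv
        obtain ⟨j, _, rfl⟩ := mem_image.1 hv
        exact hyV j) (by
        refine card_image_le.trans ?_
        rw [card_univ, Fintype.card_fin]) p hp
      refine ⟨r, fun j hd => ?_⟩
      obtain ⟨j', hj'⟩ := hyres (col j) j
      have h1 : t j ≡ y j' [MOD p] := res_eq hj' hp.one_le hpB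
      have h2 : r + t j ≡ r + y j' [MOD p] := Nat.ModEq.add_left r h1
      have h3 : p ∣ r + y j' := (Nat.modEq_zero_iff_dvd).1 (h2.symm.trans ((Nat.modEq_zero_iff_dvd).2 hd))
      exact hr _ (mem_image.2 ⟨j', mem_univ _, rfl⟩) h3
  -- the set of all good n
  set S : Set ℕ := {n : ℕ | X < n ∧ (n : ℝ) ≤ 3 * X ∧ n ≡ h [MOD d] ∧
      (∃ E : Finset (Fin m), η₀ * m ≤ E.card ∧ ∀ e ∈ E, ∃ j, col j = e ∧ (n + t j).Prime) ∧
      ∀ i j : ℤ, 1 ≤ |i| → |i| ≤ J → 1 ≤ |j| → |j| ≤ J → ∀ q : ℕ, q.Prime →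
        |((j * q - i * (a * n + b) : ℤ) : ℝ)| ≤ cf m * ff X → ∃ l, q = n + t l} with hS
  have hSfin : S.Finite := by
    apply (Set.finite_Iic ⌊3 * X⌋₊).subset
    intro p hp
    exact Set.mem_Iic.2 (Nat.le_floor hp.2.1)
  have hScard : X ^ (7 / 8 : ℝ) < (S.ncard : ℝ) := by
    by_contra hcon
    push Not at hcon
    rw [Set.ncard_eq_toFinset_card S hSfin] at hcon
    obtain ⟨n, hXn, hn3, hnb, hnd, hE, hmain⟩ := hX1 m (mem_filter.2 ⟨mem_range.2 (by omega), hm1⟩) a b ha haD haφ hb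
      t htinj (fun j => hVX _ (htV j)) htadm h (fun j => hh _ (htV j)) col (fun e => by
        have := col_fib hm0 hmK e
        unfold fib
        exact this) hSfin.toFinset hcon
    apply hnb
    rw [Set.Finite.mem_toFinset]
    exact ⟨hXn, hn3, hnd, hE, hmain⟩
  -- pigeonhole
  obtain ⟨⟨E, cc⟩, hz⟩ := pigeon (Z := Finset (Fin m) × (Fin m → Fin (Kf m))) S
    (fun z => {n : ℕ | n ∈ Good B J d h a b c X V (z.1.image (fun g => Hb g (z.2 g))) ∧ η₀ * m ≤ z.1.card})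
    (fun z => Good_finite.subset fun n hn => hn.1) (by
      rintro n ⟨hXn, hn3, hnd, ⟨E, hE1, hE2⟩, hmain⟩
      rw [Set.mem_iUnion]
      have hcc : ∀ e : Fin m, ∃ j : Fin (Kf m), e ∈ E → (n + Hb e j).Prime := by
        intro e
        by_cases he : e ∈ E
        · obtain ⟨j, hj1, hj2⟩ := hE2 e he
          refine ⟨j, fun _ => ?_⟩
          have h1 : t j = Hb e j := by
            rw [← hj1]
          rw [← h1]
          exact hj2
        · exact ⟨⟨0, by omega⟩, fun h => absurd h he⟩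
      choose cc hcc using hcc
      refine ⟨(E, cc), ⟨hXn, hn3, hnd, ?_, univ.image t, ?_, ?_, ?_⟩, hE1⟩
      · intro f hf
        obtain ⟨g, hg, rfl⟩ := mem_image.1 hf
        exact hcc g hg
      · intro v hv
        obtain ⟨j, _, rfl⟩ := mem_image.1 hv
        exact htV j
      · refine card_image_le.trans ?_
        rw [card_univ, Fintype.card_fin]
        exact hB m hmM
      · intro i j hi1 hi2 hj1 hj2 q hq hqX
        obtain ⟨l, hl⟩ := hmain i j hi1 hi2 hj1 hj2 q hq (hqX.trans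
          (mul_le_mul_of_nonneg_right (hcle m hmM) hX3.2.1))
        exact ⟨t l, mem_image.2 ⟨l, mem_univ _, rfl⟩, hl⟩) (X ^ (3 / 4 : ℝ))
      ((hX2 m (mem_range.2 (by omega))).trans_lt hScard)
  refine ⟨E, cc, ?_, ?_⟩
  · -- the set is nonempty, so `E` is large
    by_cases hne : {n : ℕ | n ∈ Good B J d h a b c X V (E.image (fun g => Hb g (cc g))) ∧ η₀ * m ≤ E.card}.Nonempty
    · obtain ⟨n, -, hn⟩ := hne
      have h1 : η * m ≤ E.card := (mul_le_mul_of_nonneg_right hηη (Nat.cast_nonneg m)).trans hn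
      rw [div_mul_eq_mul_div, one_mul, le_div_iff₀ hη]
      linarith
    · rw [Set.not_nonempty_iff_eq_empty] at hne
      rw [hne, Set.ncard_empty] at hz
      have hX0 : 0 < X := by
        by_contra hcon
        have h1 : S = ∅ := by
          apply Set.eq_empty_of_forall_notMem
          rintro n ⟨hXn, hn3, _⟩
          linarith
        rw [h1, Set.ncard_empty] at hScard
        have h2 := hX2 m (mem_range.2 (by omega))
        have h3 : (0 : ℝ) ≤ (Fintype.card (Finset (Fin m) × (Fin m → Fin (Kf m))) : ℝ) := Nat.cast_nonneg _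
        have h4 : X < 0 ∨ X = 0 := by
          rcases lt_or_eq_of_le (not_lt.1 hcon) with h | h
          · exact Or.inl h
          · exact Or.inr h
        have h5 : X < 0 := by
          rcases h4 with h | h
          · exact h
          · rw [h, Real.zero_rpow (by norm_num)] at hScard
            norm_num at hScard
        have h6 := hX3.2.2
        have h7 := hX3.2.1
        linarith
      have := Real.rpow_pos_of_pos hX0 (3 / 4 : ℝ)
      push_cast at hz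
      linarith
  · refine hz.trans ?_
    have h1 : {n : ℕ | n ∈ Good B J d h a b c X V (E.image (fun g => Hb g (cc g))) ∧ η₀ * m ≤ E.card} ⊆
        Good B J d h a b c X V (E.image (fun g => Hb g (cc g))) := fun n hn => hn.1
    exact_mod_cast Set.ncard_le_ncard h1 Good_finite

end Pool.Agent.H35_CR
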